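import Pool.Agent.H85.SF.Def
import Pool.Agent.H46.SF.Fam

/-! # [SF S] clause (b) of THEOREM SF: the family `X^r - a X^(r-1) - 1` is special (MP_821da1) -/

set_option autoImplicit false

namespace Pool.Agent.H45.SF

open Polynomial Pool.Agent.H46.SF

private theorem pow_bd {r a κ : ℕ} (hr : 3 ≤ r) (ha : 2 ^ r ≤ a) (hk : 2 * κ ≤ (r - 1) ^ 2) :
    (2 ^ r * (2 * a)) ^ κ ≤ (a ^ (r - 1)) ^ r := by
  obtain ⟨s, rfl⟩ : ∃ s, r = s + 1 := ⟨r - 1, by omega⟩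
  rw [Nat.add_sub_cancel] at *
  have ha1 : 1 ≤ a := le_trans Nat.one_le_two_pow ha
  have h1 : (2 ^ (s + 1) * (2 * a)) ^ κ ≤ (a * (2 * a)) ^ κ :=
    Nat.pow_le_pow_left (Nat.mul_le_mul_right _ ha) κ
  have h2 : (a * (2 * a)) ^ κ = 2 ^ κ * a ^ (2 * κ) := by
    rw [mul_pow, mul_pow, two_mul κ, pow_add]
    ring
  have h3 : 2 ^ κ ≤ a ^ s := by
    have h4 : κ ≤ (s + 1) * s := by nlinarith
    calc 2 ^ κ ≤ 2 ^ ((s + 1) * s) := Nat.pow_le_pow_right (by norm_num) h4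
      _ = (2 ^ (s + 1)) ^ s := pow_mul _ _ _
      _ ≤ a ^ s := Nat.pow_le_pow_left ha s
  have h5 : a ^ (2 * κ) ≤ a ^ (s ^ 2) := Nat.pow_le_pow_right ha1 hk
  calc (2 ^ (s + 1) * (2 * a)) ^ κ ≤ 2 ^ κ * a ^ (2 * κ) := h1.trans h2.le
    _ ≤ a ^ s * a ^ (s ^ 2) := Nat.mul_le_mul h3 h5
    _ = (a ^ s) ^ (s + 1) := by
      rw [← pow_add, ← pow_mul]
      ring_nf

/-- the family is special -/
theorem special_fam (r a κ : ℕ) (hodd : Odd r) (hr : 3 ≤ r) (ha : 2 ^ r ≤ a)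
    (hk : 2 * κ ≤ (r - 1) ^ 2) :
    H85.SF.Special (Polynomial.X ^ r - Polynomial.C (a : ℤ) * Polynomial.X ^ (r - 1) - 1)
      (2 * a) κ := by
  have ha8 : 8 ≤ a := le_trans (by
    calc 8 = 2 ^ 3 := by norm_num
      _ ≤ 2 ^ r := Nat.pow_le_pow_right (by norm_num) hr) ha
  have ha3 : (3 : ℤ) ≤ (a : ℤ) := by
    have : (8 : ℤ) ≤ a := by exact_mod_cast ha8
    linarith
  have hfam : (Polynomial.X ^ r - Polynomial.C (a : ℤ) * Polynomial.X ^ (r - 1) - 1 : ℤ[X]) =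
      fam (a : ℤ) r := rfl
  rw [hfam]
  obtain ⟨al, h1, -, h3⟩ := exists_root (a := (a : ℤ)) (r := r) (by omega) ha3
  have hdeg := fam_natDegree (a : ℤ) (r := r) (by omega)
  have haR : (8 : ℝ) ≤ (a : ℝ) := by exact_mod_cast ha8
  refine ⟨fam_monic _ (by omega), fam_irreducible (by omega) ha3, by rw [hdeg]; omega, ?_, ?_⟩
  · rw [fam_mahlerMeasure (by omega) ha3 h1 h3]
    have h4 := root_le_add_one (r := r) (by omega) ha3 h1 h3
    push_cast at h4 ⊢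
    linarith
  · intro α hα
    have h5 : α = al := real_root_uniq hodd ha3 hα h3
    subst h5
    refine ⟨a, 1, le_refl _, ?_, ?_, ?_⟩
    · rw [abs_of_nonneg (by positivity)]
      push_cast
      linarith
    · push_cast
      linarith
    · have h6 := root_le (r := r) (by omega) ha3 h1 h3
      rw [hdeg]
      have h7 : |α - ((a : ℤ) : ℝ) / ((1 : ℤ) : ℝ)| ≤ ((a : ℝ) ^ (r - 1))⁻¹ := by
        rw [Int.cast_one, div_one, abs_of_pos (by linarith)]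
        exact_mod_cast h6
      have h8 := pow_bd hr ha hk
      have h9 : ((2 : ℝ) ^ r * ((2 * a : ℕ) : ℝ)) ^ κ ≤ ((a : ℝ) ^ (r - 1)) ^ r := by
        exact_mod_cast h8
      have h10 : (0 : ℝ) < ((a : ℝ) ^ (r - 1)) ^ r := by positivity
      calc |α - ((a : ℤ) : ℝ) / ((1 : ℤ) : ℝ)| ^ r * ((2 : ℝ) ^ r * ((2 * a : ℕ) : ℝ)) ^ κ
          ≤ (((a : ℝ) ^ (r - 1))⁻¹) ^ r * ((a : ℝ) ^ (r - 1)) ^ r := by
            gcongr
        _ = 1 := by
            rw [inv_pow, inv_mul_cancel₀ h10.ne']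

end Pool.Agent.H45.SF
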